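import Pool.Agent.Helper13.PLF.Defs

/-!
# Project PL, version 7 (MP_e66f84_ag): the pro-`ℓ` tower for cyclic covers of any curve `Y`

`k` a number field with the `ℓ`-th roots of unity, `K0 / k` the function field of a curve `Y`,
`y ^ ℓ = h` a cyclic cover of `Y`, of genus at least one (`GoodCurve k ℓ h`), with geometric branch
points `GBr k (AlgebraicClosure k) ℓ h`.  Twists `y ^ ℓ = c h`.
-/

set_option autoImplicit false

namespace Pool.Agent.PRG

open VC IntermediateField NumberField IsDedekindDomain Pool.Agent.SC Pool.Agent.Helper91.Sect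
open Pool.Agent.L (L0 MM)
open Pool.Agent.LN (Geo Act GoodCurve)
open Pool.Agent.M (Moves OverPl inL0)
open Pool.Agent.ML (HasMu BPl GBr)
open Pool.Agent.TOW (Au AuE)
open Pool.Agent.PDL (YL)
open Pool.Agent.PRL (TT AbE Four RtM)

noncomputable section

/-! ## Geometric blocks -/

/-- BLOCK YLV (helper59): `YL` is a level, abelian of exponent `ℓ` over `L0`. -/
def StmtYLV : Prop :=
  ∀ (k K0 E U : Type) [Field k] [NumberField k] [Field K0] [Field E] [Field U] [Algebra k K0]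
    [Algebra k E] [Algebra E U] [Algebra K0 U] [Algebra k U] [IsScalarTower k E U]
    [IsScalarTower k K0 U] (ℓ : ℕ) (h : K0) (r : U), ℓ.Prime → Geo k K0 E U ℓ h r →
    TW.Lvl E K0 (YL E K0 ℓ (U := U)) ∧ MM E K0 r ≤ YL E K0 ℓ ∧ AbE E K0 ℓ (YL E K0 ℓ (U := U))

/-- BLOCK FOUR (helper59; from `ML.StmtZ`, `PRL.StmtPXL`). -/
def StmtFOUR : Prop :=
  ∀ (k K0 E U : Type) [Field k] [NumberField k] [Field K0] [Field E] [Field U] [Algebra k K0]
    [Algebra k E] [Algebra E U] [Algebra K0 U] [Algebra k U] [IsScalarTower k E U]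
    [IsScalarTower k K0 U] (ℓ : ℕ) (h : K0) (r : U), ℓ.Prime → ℓ ≠ 2 → HasMu k ℓ →
    Geo k K0 E U ℓ h r → 3 ≤ Nat.card {b : Place E (L0 E K0 (U := U)) // BPl ℓ h b} →
    (ℓ = 3 → 4 ≤ Nat.card {b : Place E (L0 E K0 (U := U)) // BPl ℓ h b}) →
    Four E K0 r (YL E K0 ℓ (U := U))

/-- BLOCK GEN (helper59; from `StmtYLV`, `PD.StmtLVL`, `PRL.StmtFCL`, `PRL.StmtPLF`, `PRL.StmtTOWU`):
the theorem for the tower. -/
def StmtGEN : Prop :=
  ∀ (k K0 E U : Type) [Field k] [NumberField k] [Field K0] [Field E] [Field U] [Algebra k K0]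
    [Algebra k E] [Algebra E U] [Algebra K0 U] [Algebra k U] [IsScalarTower k E U]
    [IsScalarTower k K0 U] (ℓ : ℕ) (h : K0) (r : U), ℓ.Prime → ℓ ≠ 2 → HasMu k ℓ →
    Geo k K0 E U ℓ h r → ∀ R : Finset (Place E (L0 E K0 (U := U))), PD.RatSet (k := k) ℓ h r R →
    Four E K0 r (YL E K0 ℓ (U := U)) → ∀ m : ℕ,
    PD.Rare ℓ (fun c : k => ∃ Φ : (E ≃ₐ[k] E) →* (U ≃+* U), Act (K0 := K0) ℓ r c Φ ∧
      ¬ ∃ b ∈ R, ∃ Q : Place E (TT E K0 r ℓ m), OverPl b Q ∧ ∀ g : E ≃ₐ[k] E, Moves (Φ g) _ Q Q)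

/-- BLOCK GE2 (helper59): the same for the level `YL`, any prime `ℓ`. -/
def StmtGE2 : Prop :=
  ∀ (k K0 E U : Type) [Field k] [NumberField k] [Field K0] [Field E] [Field U] [Algebra k K0]
    [Algebra k E] [Algebra E U] [Algebra K0 U] [Algebra k U] [IsScalarTower k E U]
    [IsScalarTower k K0 U] (ℓ : ℕ) (h : K0) (r : U), ℓ.Prime → HasMu k ℓ →
    Geo k K0 E U ℓ h r → ∀ R : Finset (Place E (L0 E K0 (U := U))), PD.RatSet (k := k) ℓ h r R →
    PD.Rare ℓ (fun c : k => ∃ Φ : (E ≃ₐ[k] E) →* (U ≃+* U), Act (K0 := K0) ℓ r c Φ ∧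
      ¬ ∃ b ∈ R, ∃ Q : Place E (YL E K0 ℓ (U := U)), OverPl b Q ∧
        ∀ g : E ≃ₐ[k] E, Moves (Φ g) _ Q Q)

/-! ## The branch points -/

/-- the geometric branch point `b` is rational over `k` -/
def RatG {k K0 : Type} [Field k] [Field K0] [Algebra k K0] {ℓ : ℕ} {h : K0}
    (b : GBr k (AlgebraicClosure k) ℓ h) : Prop := ∀ g, b.map g = b

/-- There are at least three branch points, four if `ℓ = 3`, five if `ℓ = 2`; and if there are two
rational ones then `ℓ` is odd and there is a third closed branch point of degree prime to `ℓ`. -/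
structure NdG (k : Type) {K0 : Type} [Field k] [Field K0] [Algebra k K0] (ℓ : ℕ) (h : K0) :
    Prop where
  three : 3 ≤ Nat.card (GBr k (AlgebraicClosure k) ℓ h)
  four : ℓ = 3 → 4 ≤ Nat.card (GBr k (AlgebraicClosure k) ℓ h)
  five : ℓ = 2 → 5 ≤ Nat.card (GBr k (AlgebraicClosure k) ℓ h)
  pair : ∀ a b : GBr k (AlgebraicClosure k) ℓ h, RatG a → RatG b → a ≠ b → ℓ ≠ 2 ∧
    ∃ p : GBr k (AlgebraicClosure k) ℓ h, p ≠ a ∧ p ≠ b ∧
      ¬ ℓ ∣ Nat.card {q : GBr k (AlgebraicClosure k) ℓ h // ∃ g, p.map g = q}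

/-- BLOCK RSG (from the correspondence of `GBr` and the branch places, model `MLT.ht`): the set of the
rational branch places. -/
def StmtRSG : Prop :=
  ∀ (k K0 E U : Type) [Field k] [NumberField k] [Field K0] [Field E] [Field U] [Algebra k K0]
    [Algebra k E] [Algebra E U] [Algebra K0 U] [Algebra k U] [IsScalarTower k E U]
    [IsScalarTower k K0 U] (ℓ : ℕ) (h : K0) (r : U), ℓ.Prime → HasMu k ℓ → GoodCurve k ℓ h →
    Geo k K0 E U ℓ h r → NdG k ℓ h → (∃ b : GBr k (AlgebraicClosure k) ℓ h, RatG b) →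
    3 ≤ Nat.card {b : Place E (L0 E K0 (U := U)) // BPl ℓ h b} ∧
    (ℓ = 3 → 4 ≤ Nat.card {b : Place E (L0 E K0 (U := U)) // BPl ℓ h b}) ∧
    ∃ R : Finset (Place E (L0 E K0 (U := U))), PD.RatSet (k := k) ℓ h r R ∧
      ∀ b ∈ R, ∃ a : GBr k (AlgebraicClosure k) ℓ h, RatG a ∧
        ∀ x : K0, x ∈ a.P ↔ inL0 x ∈ b.ring

/-- BLOCK NOG (from `PRL.StmtNONE` and the correspondence of the branch points): no rational
branch point. -/
def StmtNOG : Prop :=
  ∀ (k K0 E U : Type) [Field k] [NumberField k] [Field K0] [Field E] [Field U] [Algebra k K0]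
    [Algebra k E] [Algebra E U] [Algebra K0 U] [Algebra k U] [IsScalarTower k E U]
    [IsScalarTower k K0 U] (ℓ : ℕ) (h : K0) (r : U), ℓ.Prime → HasMu k ℓ → GoodCurve k ℓ h →
    Geo k K0 E U ℓ h r → (¬ ∃ b : GBr k (AlgebraicClosure k) ℓ h, RatG b) →
    PD.Rare ℓ (fun c : k => ∃ Φ : (E ≃ₐ[k] E) →* (U ≃+* U), Act (K0 := K0) ℓ r c Φ)

/-! ## The absolute form -/

section abs

variable (k K0 : Type) {K : Type} [Field k] [Field K0] [Field K] [Algebra k K] [Algebra K0 K]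

/-- the function field of `Y` over the algebraic closure of `k`, in the algebraic closure of `K` -/
def KBY : Subfield (AlgebraicClosure K) :=
  Subfield.closure ({z | IsAlgebraic k z} ∪
    Set.range fun x : K0 => algebraMap K (AlgebraicClosure K) (algebraMap K0 K x))

/-- the function field of the cover -/
def KBX (y : K) : Subfield (AlgebraicClosure K) :=
  Subfield.closure ({z | IsAlgebraic k z} ∪
    (Set.range fun x : K0 => algebraMap K (AlgebraicClosure K) (algebraMap K0 K x)) ∪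
    {algebraMap K (AlgebraicClosure K) y})

/-- The tower over `KBX`: `TG (m + 1)` is the maximal abelian unramified extension of exponent `ℓ` of
`TG m`. -/
def TG (y : K) (ℓ : ℕ) : ℕ → Subfield (AlgebraicClosure K)
  | 0 => KBX k K0 y
  | m + 1 => Subfield.closure ((TG y ℓ m : Set (AlgebraicClosure K)) ∪ {w | RtM k ℓ (TG y ℓ m) w})

/-- The maximal abelian extension of exponent `ℓ` of `KBY` which is unramified over `KBX`. -/
def YG (y : K) (ℓ : ℕ) : Subfield (AlgebraicClosure K) :=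
  Subfield.closure ((KBX k K0 y : Set (AlgebraicClosure K)) ∪
    {w | w ^ ℓ ∈ KBY k K0 (K := K) ∧ RtM k ℓ (KBX k K0 y) w})

end abs

/-- The section `s` of `K` fixes a place of `N` above the place `P` of `K0`. -/
def AgrG {k K0 K : Type} [Field k] [Field K0] [Field K] [Algebra k K] [Algebra K0 K]
    (s : GaloisSection k K) (N : Subfield (AlgebraicClosure K)) (P : ValuationSubring K0) : Prop :=
  ∃ Q : ValuationSubring (AlgebraicClosure K), (∀ z, IsAlgebraic k z → z ∈ Q) ∧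
    (∀ x : K0, x ∈ P ↔ algebraMap K (AlgebraicClosure K) (algebraMap K0 K x) ∈ Q) ∧
    ∀ w ∈ N, ∃ hw : w ∈ Kur k K, ∀ g : Gk k K,
      (w ∈ Q ↔ (s.toHom g ⟨w, hw⟩ : AlgebraicClosure K) ∈ Q)

/-- BLOCK TRG (helper20): the transfer (model `PRL.StmtTRT`). -/
def StmtTRG : Prop :=
  ∀ (k K0 : Type) [Field k] [NumberField k] [Field K0] [Algebra k K0] (ℓ : ℕ) (h : K0), ℓ.Prime →
    GoodCurve k ℓ h →
    ∃ (E U : Type) (_ : Field E) (_ : Field U) (_ : Algebra k E) (_ : Algebra E U)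
      (_ : Algebra K0 U) (_ : Algebra k U) (_ : IsScalarTower k E U) (_ : IsScalarTower k K0 U)
      (r : U), Geo k K0 E U ℓ h r ∧
      ∀ c : k, c ≠ 0 → ∀ (K : Type) [Field K] [Algebra k K] [Algebra K0 K] [IsScalarTower k K0 K]
        (y : K), y ^ ℓ = algebraMap k K c * algebraMap K0 K h → ∀ s : GaloisSection k K,
        ∃ Φ : (E ≃ₐ[k] E) →* (U ≃+* U), Act (K0 := K0) ℓ r c Φ ∧
          (∀ (m : ℕ) (Q : Place E (TT E K0 r ℓ m)), (∀ g : E ≃ₐ[k] E, Moves (Φ g) _ Q Q) →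
            ∀ (b : Place E (L0 E K0 (U := U))) (P : ValuationSubring K0), OverPl b Q →
            (∀ x : K0, x ∈ P ↔ inL0 x ∈ b.ring) → AgrG s (TG k K0 y ℓ m) P) ∧
          ∀ Q : Place E (YL E K0 ℓ (U := U)), (∀ g : E ≃ₐ[k] E, Moves (Φ g) _ Q Q) →
            ∀ (b : Place E (L0 E K0 (U := U))) (P : ValuationSubring K0), OverPl b Q →
            (∀ x : K0, x ∈ P ↔ inL0 x ∈ b.ring) → AgrG s (YG k K0 y ℓ) P

/-- Some curve over `k` which maps onto `y ^ ℓ = c h` has a section which fixes no place of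
`N y` above a rational branch point. -/
def OthG {k K0 : Type} [Field k] [Field K0] [Algebra k K0] (ℓ : ℕ) (h : K0)
    (N : ∀ (K : Type) [Field K] [Algebra k K] [Algebra K0 K], K → Subfield (AlgebraicClosure K))
    (c : k) : Prop :=
  ∃ (K : Type) (_ : Field K) (_ : Algebra k K) (_ : Algebra K0 K) (_ : IsScalarTower k K0 K)
    (y : K), y ^ ℓ = algebraMap k K c * algebraMap K0 K h ∧ ∃ s : GaloisSection k K,
      ∀ b : GBr k (AlgebraicClosure k) ℓ h, RatG b → ¬ AgrG s (N K y) b.P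

/-- BLOCK RareG (from `StmtGEN`, `StmtGE2`, `StmtFOUR`, `StmtRSG`, `StmtNOG`, `StmtTRG`): the theorem,
in the absolute form. -/
def StmtRareG : Prop :=
  ∀ (k K0 : Type) [Field k] [NumberField k] [Field K0] [Algebra k K0] (ℓ : ℕ) (h : K0), ℓ.Prime →
    HasMu k ℓ → GoodCurve k ℓ h → NdG k ℓ h →
    (ℓ ≠ 2 → ∀ m : ℕ, PD.Rare ℓ (OthG (k := k) ℓ h fun K _ _ _ y => TG k K0 (K := K) y ℓ m)) ∧
    PD.Rare ℓ (OthG (k := k) ℓ h fun K _ _ _ y => YG k K0 (K := K) y ℓ)

/-- BLOCK EXG (model `PD37.exists_agrL`): the sections of the rational branch points. -/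
def StmtEXG : Prop :=
  ∀ (k K0 : Type) [Field k] [NumberField k] [Field K0] [Algebra k K0] (ℓ : ℕ) (h : K0), ℓ.Prime →
    GoodCurve k ℓ h → ∀ c : k, c ≠ 0 → ∀ b : GBr k (AlgebraicClosure k) ℓ h, RatG b →
    ∃ (K : Type) (_ : Field K) (_ : Algebra k K) (_ : Algebra K0 K) (_ : IsScalarTower k K0 K)
      (y : K) (s : GaloisSection k K), y ^ ℓ = algebraMap k K c * algebraMap K0 K h ∧
      IntermediateField.adjoin K0 {y} = ⊤ ∧
      (∀ m : ℕ, AgrG s (TG k K0 y ℓ m) b.P) ∧ AgrG s (YG k K0 y ℓ) b.P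

end

end Pool.Agent.PRG
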