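import Pool.Agent.Helper59.PLG.Defs
import Pool.Agent.Helper59.PL.PXL
import Pool.Agent.Helper45.PD.YLa

/-!
# Project PL, version 7, block FOUR: four automorphisms of `YL` over `M`
-/

set_option autoImplicit false
set_option linter.unusedSectionVars false

namespace Pool.Agent.PRG

open VC IntermediateField NumberField IsDedekindDomain Pool.Agent.SC
open Pool.Agent.L (L0 MM)
open Pool.Agent.LN (Geo)
open Pool.Agent.M (Moves OverPl inL0 const_of_pow)
open Pool.Agent.ML (BPl HasMu IsZ)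
open Pool.Agent.TOW (Au AuE over59 inL59 L0_le_MM)
open Pool.Agent.PDL (YL mem_YL L0_le_YL eig_root gal_L0)
open Pool.Agent.PRL (Four)

section inert

variable {E K0 U : Type} [Field E] [Field K0] [Field U] [Algebra E U] [Algebra K0 U]

/-- An automorphism over `L0` which fixes a place above `b` fixes the roots of the functions with
order divisible by `ℓ` at `b`. -/
theorem inert_fix59 [IsAlgClosed E] [Algebra.IsAlgebraic (L0 E K0 (U := U)) U]
    (ff : IsFunctionField E (L0 E K0 (U := U))) {ℓ : ℕ} (hℓ : 0 < ℓ) {N : IntermediateField E U}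
    (hLN : L0 E K0 (U := U) ≤ N) {b : Place E (L0 E K0 (U := U))} {Q : Place E N}
    (hbQ : OverPl b Q) {ι : U ≃+* U} (hι : AuE E K0 ι) (hs : ∀ x ∈ N, ι x ∈ N)
    (hQ : Moves ι N Q Q) {w : U} (hwN : w ∈ N) (hw0 : w ≠ 0) {f : L0 E K0 (U := U)}
    (hf : (f : U) = w ^ ℓ) (hd : (ℓ : ℤ) ∣ ord b.ring f) : ι w = w := by
  obtain ⟨W, hW⟩ := over59 Q
  have hW0 : ∀ x : L0 E K0 (U := U), (x : U) ∈ W.ring ↔ x ∈ b.ring := fun x => by
    rw [← hW _ (hLN x.2)]
    exact (hbQ _ x.2 (hLN x.2)).symm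
  have hf0 : f ≠ 0 := by
    rintro rfl
    exact pow_ne_zero ℓ hw0 hf.symm
  obtain ⟨m, hm⟩ := hd
  obtain ⟨u, hu0, hu⟩ := FF.exists_ord_eq ff b m
  have huU : (u : U) ≠ 0 := fun h => hu0 (Subtype.ext h)
  set v : U := w / u with hv
  have hv0 : v ≠ 0 := div_ne_zero hw0 huU
  have h1 : ord b.ring (f / u ^ ℓ) = 0 := by
    rw [FF.ord_div ff b hf0 (pow_ne_zero _ hu0), FF.ord_pow ff b hu0, hm, hu]
    ring
  have h2 : ((f / u ^ ℓ : L0 E K0 (U := U)) : U) = v ^ ℓ := by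
    rw [hv, div_pow, ← hf]
    rfl
  have h3 := val_unit_of_ord_zero ff b (B := W.ring) hW0 (div_ne_zero hf0 (pow_ne_zero _ hu0)) h1
  rw [h2, map_pow] at h3
  have h5 : W.ring.valuation v = 1 := by
    rcases lt_trichotomy (W.ring.valuation v) 1 with h | h | h
    · exact absurd h3 (pow_lt_one₀ zero_le h hℓ.ne').ne
    · exact h
    · exact absurd h3 (one_lt_pow₀ h hℓ.ne').ne'
  have hvW : v ∈ W.ring := by
    rw [← W.ring.valuation_le_one_iff, h5]
  obtain ⟨c, hcv⟩ := exists_const_residue_abs (C := E) (M := L0 E K0 (U := U)) (Ω := U)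
    ff W.algebraMap_mem W.ne_top hvW
  have hvN : v ∈ N := div_mem hwN (hLN u.2)
  have hvcN : v - algebraMap E U c ∈ N := sub_mem hvN (N.algebraMap_mem c)
  have hnon : W.ring.valuation (ι (v - algebraMap E U c)) < 1 := by
    rw [← ValuationSubring.mem_nonunits_iff, ValuationSubring.mem_nonunits_iff_or] at hcv ⊢
    rcases hcv with h6 | h6
    · exact Or.inl (by rw [h6, map_zero])
    · right
      intro h7
      apply h6
      rw [← map_inv₀] at h7
      have h8 := hs _ (inv_mem hvcN)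
      rw [← hW _ (inv_mem hvcN), hQ _ _ h8, hW _ h8]
      exact h7
  have hwm : (ι w / w) ^ ℓ = 1 := by
    rw [div_pow, ← map_pow, ← hf, hι.onL0 _ f.2, hf]
    exact div_self (pow_ne_zero ℓ hw0)
  obtain ⟨ζ, hζ⟩ := const_of_pow (E := E) hℓ hwm
  have hζw : ι w = algebraMap E U ζ * w := by rw [hζ, div_mul_cancel₀ _ hw0]
  have hav : ι v = algebraMap E U ζ * v := by
    rw [hv, map_div₀, hζw, hι.onL0 _ u.2, mul_div_assoc]
  have hζ1 : ζ = 1 := by
    by_contra hne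
    have h6 : ι (v - algebraMap E U c) - (v - algebraMap E U c) = algebraMap E U (ζ - 1) * v := by
      rw [map_sub, hι.fixE, hav, map_sub, map_one]
      ring
    have h7 : W.ring.valuation (algebraMap E U (ζ - 1) * v) < 1 := by
      rw [← h6]
      exact (Valuation.map_sub _ _ _).trans_lt (max_lt hnon hcv)
    rw [map_mul, h5, mul_one] at h7
    rw [← ValuationSubring.mem_nonunits_iff, ValuationSubring.mem_nonunits_iff_or] at h7
    rcases h7 with h8 | h8
    · exact hne (sub_eq_zero.1 ((map_eq_zero _).1 h8))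
    · apply h8
      rw [← map_inv₀]
      exact W.algebraMap_mem _
  rw [hζw, hζ1, map_one, one_mul]

/-- Conversely: a root fixed by the inertia at the branch place `b` has order divisible by `ℓ`. -/
theorem ord_of_inert_fix59 [IsAlgClosed E] [Algebra.IsAlgebraic (L0 E K0 (U := U)) U]
    (ff : IsFunctionField E (L0 E K0 (U := U))) {ℓ : ℕ} (hℓ : ℓ.Prime) {r : U} {h : K0}
    (hr : r ^ ℓ = algebraMap K0 U h) (hrn : r ≠ 0) {N : IntermediateField E U}
    (hLN : L0 E K0 (U := U) ≤ N) (hrN : r ∈ N) {b : Place E (L0 E K0 (U := U))}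
    (hb : BPl ℓ h b) {Q : Place E N}
    (hbQ : OverPl b Q) {ι : U ≃+* U} (hι : AuE E K0 ι) (hs : ∀ x ∈ N, ι x ∈ N)
    (hQ : Moves ι N Q Q) {ζ : E} (hζ : IsPrimitiveRoot ζ ℓ) (hιr : ι r = algebraMap E U ζ * r)
    {w : U} (hwN : w ∈ N) (hw0 : w ≠ 0) {f : L0 E K0 (U := U)}
    (hf : (f : U) = w ^ ℓ) (hw : ι w = w) : (ℓ : ℤ) ∣ ord b.ring f := by
  have hF : Fact ℓ.Prime := ⟨hℓ⟩
  have hf0 : f ≠ 0 := by
    rintro rfl
    exact pow_ne_zero ℓ hw0 hf.symm
  have hh : ((inL0 h : L0 E K0 (U := U)) : U) = r ^ ℓ := hr.symm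
  have hh0 : (inL0 h : L0 E K0 (U := U)) ≠ 0 := by
    intro h0
    rw [h0] at hh
    exact pow_ne_zero ℓ hrn hh.symm
  have hm0 : ((ord b.ring (inL0 h : L0 E K0 (U := U)) : ℤ) : ZMod ℓ) ≠ 0 := by
    intro h0
    exact hb ((ZMod.intCast_zmod_eq_zero_iff_dvd _ _).1 h0)
  set j : ℕ := (((ord b.ring f : ℤ) : ZMod ℓ) *
    ((ord b.ring (inL0 h : L0 E K0 (U := U)) : ℤ) : ZMod ℓ)⁻¹).val with hj
  have hj1 : (j : ZMod ℓ) = ((ord b.ring f : ℤ) : ZMod ℓ) *
      ((ord b.ring (inL0 h : L0 E K0 (U := U)) : ℤ) : ZMod ℓ)⁻¹ := by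
    rw [hj, ZMod.natCast_zmod_val]
  have hj2 : (ℓ : ℤ) ∣ ord b.ring f - j * ord b.ring (inL0 h : L0 E K0 (U := U)) := by
    rw [← ZMod.intCast_zmod_eq_zero_iff_dvd]
    push_cast
    rw [hj1, inv_mul_cancel_right₀ hm0, sub_self]
  have h1 : ι (w / r ^ j) = w / r ^ j := by
    refine inert_fix59 ff hℓ.pos hLN hbQ hι hs hQ (div_mem hwN (pow_mem hrN _))
      (div_ne_zero hw0 (pow_ne_zero _ hrn)) (f := f / inL0 h ^ j) ?_ ?_
    · rw [div_pow, ← pow_mul, mul_comm j, pow_mul, ← hh, ← hf]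
      rfl
    · rw [FF.ord_div ff b hf0 (pow_ne_zero _ hh0), FF.ord_pow ff b hh0]
      exact hj2
  rw [map_div₀, hw, map_pow, hιr, mul_pow] at h1
  have h2 : algebraMap E U ζ ^ j = 1 := by
    have h3 : r ^ j ≠ 0 := pow_ne_zero _ hrn
    have hz : algebraMap E U ζ ^ j ≠ 0 := pow_ne_zero _
      ((map_ne_zero _).2 (hζ.ne_zero hℓ.ne_zero))
    rw [div_eq_div_iff (mul_ne_zero hz h3) h3] at h1
    have h4 := mul_left_cancel₀ hw0 h1
    have h5 : 1 * r ^ j = algebraMap E U ζ ^ j * r ^ j := by rw [one_mul]; exact h4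
    exact (mul_right_cancel₀ h3 h5).symm
  rw [← map_pow] at h2
  have h3 : ζ ^ j = 1 := (algebraMap E U).injective (by rw [h2, map_one])
  have h4 : ℓ ∣ j := (hζ.pow_eq_one_iff_dvd j).1 h3
  have h5 : (ℓ : ℤ) ∣ j * ord b.ring (inL0 h : L0 E K0 (U := U)) :=
    Dvd.dvd.mul_right (by exact_mod_cast h4) _
  have h6 := dvd_add hj2 h5
  rwa [sub_add_cancel] at h6

/-- four automorphisms -/
theorem four_of59 {r : U} {N : IntermediateField E U} (g : Fin 4 → (U ≃+* U))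
    (hg : ∀ i, AuE E K0 (g i) ∧ g i r = r) (hd : ∀ i j, i ≠ j → ∃ z ∈ N, g i z ≠ g j z) :
    Four E K0 r N := by
  classical
  have hinj : Function.Injective g := by
    intro i j hij
    by_contra hne
    obtain ⟨z, -, hz⟩ := hd i j hne
    exact hz (by rw [hij])
  refine ⟨Finset.univ.image g, ?_, ?_, ?_⟩
  · rw [Finset.card_image_of_injective _ hinj]
    simp
  · intro a ha
    obtain ⟨i, -, rfl⟩ := Finset.mem_image.1 ha
    exact hg i
  · intro a ha b hb hab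
    obtain ⟨i, -, rfl⟩ := Finset.mem_image.1 ha
    obtain ⟨j, -, rfl⟩ := Finset.mem_image.1 hb
    exact hd i j fun h => hab (by rw [h])

end inert

/-- **BLOCK FOUR.** -/
theorem fOUR (hZ : ML.StmtZ) (hYLV : StmtYLV) : StmtFOUR := by
  intro k K0 E U _ _ _ _ _ _ _ _ _ _ _ _ ℓ h r hℓ h2 hmu G h3 h4
  have hclE : IsAlgClosed E := G.clE
  have hcE : CharZero E := charZero_of_injective_algebraMap (algebraMap k E).injective
  have hcU : CharZero U := charZero_of_injective_algebraMap (algebraMap k U).injective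
  have hgal : IsGalois (L0 E K0 (U := U)) U := gal_L0 G.normal
  have halg : Algebra.IsAlgebraic (L0 E K0 (U := U)) U := inferInstance
  have hr0 : r ∉ L0 E K0 (U := U) := by
    have h1 := G.rnot 1 one_pos hℓ.one_lt
    rwa [pow_one] at h1
  have hrn : r ≠ 0 := by
    rintro rfl
    exact hr0 (zero_mem _)
  obtain ⟨hL, hM, -⟩ := hYLV k K0 E U ℓ h r hℓ G
  have hX := PRL.pXL k K0 E U ℓ h r hℓ G (YL E K0 ℓ) hL hM
  have hs : ∀ T : U ≃+* U, AuE E K0 T → ∀ x ∈ YL E K0 ℓ (U := U), T x ∈ YL E K0 ℓ (U := U) :=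
    fun T hT => hL.stab T hT.fixK fun e => ⟨e, hT.fixE e⟩
  have hrY : r ∈ YL E K0 ℓ (U := U) := hM TOW.rMM59
  -- inertia, with one root of unity
  obtain ⟨ζk, hζk⟩ := hmu
  have hζ : IsPrimitiveRoot (algebraMap k E ζk) ℓ :=
    hζk.map_of_injective (algebraMap k E).injective
  set ζ : E := algebraMap k E ζk with hζdef
  have hI : ∀ b : Place E (L0 E K0 (U := U)), BPl ℓ h b →
      ∃ (Q : Place E (YL E K0 ℓ (U := U))) (ι : U ≃+* U), OverPl b Q ∧ AuE E K0 ι ∧
        ι r = algebraMap E U ζ * r ∧ Moves ι _ Q Q := by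
    intro b hb
    obtain ⟨⟨Q, hQ⟩, -, -, hin⟩ := hX.2 b hb
    obtain ⟨ι, ζ', hι, hζ', hιr, hm⟩ := hin Q hQ
    have : NeZero ℓ := ⟨hℓ.ne_zero⟩
    obtain ⟨j, -, hj⟩ := hζ'.eq_pow_of_pow_eq_one hζ.pow_eq_one
    refine ⟨Q, ι ^ j, hQ, PDL.auE_pow hι j, ?_, M.moves_pow (hs ι hι) hm j⟩
    have h5 : ∀ i : ℕ, (ι ^ i) r = algebraMap E U (ζ' ^ i) * r := by
      intro i
      induction i with
      | zero => simp
      | succ i ih =>
        rw [pow_succ']
        show ι ((ι ^ i) r) = _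
        rw [ih, map_mul, hι.fixE, hιr, pow_succ, map_mul, mul_assoc]
    rw [h5, hj]
  -- the action on the functions
  have hdvd1 : ¬ (ℓ : ℤ) ∣ 1 := by
    intro h5
    have h6 := Int.le_of_dvd one_pos h5
    have := hℓ.two_le
    omega
  have hA : ∀ b b' b'' : Place E (L0 E K0 (U := U)), BPl ℓ h b → BPl ℓ h b' → b ≠ b' →
      ∀ z : U, IsZ ℓ b b' z → ∀ (Q : Place E (YL E K0 ℓ (U := U))) (ι : U ≃+* U), OverPl b'' Q →
      AuE E K0 ι → ι r = algebraMap E U ζ * r → Moves ι _ Q Q → BPl ℓ h b'' →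
      z ∈ YL E K0 ℓ (U := U) ∧ (b'' ≠ b → b'' ≠ b' → ι z = z) ∧ (b'' = b → ι z ≠ z) := by
    intro b b' b'' hb hb' hbb z hz Q ι hQ hι hιr hm hb''
    obtain ⟨hz0, f, hf, hf1, hf2, hf3⟩ := hz
    have hzY : z ∈ YL E K0 ℓ (U := U) := mem_YL (by rw [← hf]; exact f.2)
    refine ⟨hzY, fun h5 h6 => ?_, ?_⟩
    · exact inert_fix59 G.ff hℓ.pos L0_le_YL hQ hι (hs ι hι) hm hzY hz0 hf (hf3 b'' h5 h6)
    · rintro rfl h5
      have h6 := ord_of_inert_fix59 G.ff hℓ G.rpow hrn L0_le_YL hrY hb'' hQ hι (hs ι hι) hm hζ hιr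
        hzY hz0 hf h5
      have h7 := dvd_sub h6 hf1
      rw [sub_sub_cancel] at h7
      exact hdvd1 h7
  have hZ' : ∀ b b' : Place E (L0 E K0 (U := U)), BPl ℓ h b → BPl ℓ h b' → b ≠ b' →
      ∃ z : U, IsZ ℓ b b' z := hZ k K0 E U ℓ ℓ h r hℓ.pos hℓ dvd_rfl ⟨ζk, hζk⟩ G
  have hfin : Finite {b : Place E (L0 E K0 (U := U)) // BPl ℓ h b} :=
    Nat.finite_of_card_ne_zero (by omega)
  have hft : Fintype {b : Place E (L0 E K0 (U := U)) // BPl ℓ h b} := Fintype.ofFinite _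
  -- products of inertia elements are automorphisms over `M`
  have hprod : ∀ ι ι' : U ≃+* U, AuE E K0 ι → ι r = algebraMap E U ζ * r → AuE E K0 ι' →
      ι' r = algebraMap E U ζ * r → AuE E K0 (ι * ι'⁻¹) ∧ (ι * ι'⁻¹) r = r := by
    intro ι ι' hι hιr hι' hιr'
    refine ⟨hι.mul hι'.inv, ?_⟩
    show ι (ι'⁻¹ r) = r
    have hz : algebraMap E U ζ ≠ 0 := (map_ne_zero _).2 (hζ.ne_zero hℓ.ne_zero)
    have h5 : ι'⁻¹ r = algebraMap E U ζ⁻¹ * r := by
      show ι'.symm r = _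
      rw [RingEquiv.symm_apply_eq, map_mul, hι'.fixE, hιr', map_inv₀, inv_mul_cancel_left₀ hz]
    rw [h5, map_mul, hι.fixE, hιr, map_inv₀, inv_mul_cancel_left₀ hz]
  by_cases hℓ3 : ℓ = 3
  · obtain ⟨e⟩ : Nonempty (Fin 4 ↪ {b : Place E (L0 E K0 (U := U)) // BPl ℓ h b}) :=
      Function.Embedding.nonempty_of_card_le (by
        rw [Fintype.card_fin, ← Nat.card_eq_fintype_card]
        exact h4 hℓ3)
    have hne : ∀ i j : Fin 4, i ≠ j → (e i).1 ≠ (e j).1 := fun i j hij h5 =>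
      hij (e.injective (Subtype.ext h5))
    choose Q ι hQ hι hιr hm using fun i : Fin 4 => hI (e i).1 (e i).2
    obtain ⟨z, hz⟩ := hZ' (e 0).1 (e 3).1 (e 0).2 (e 3).2 (hne _ _ (by decide))
    obtain ⟨z', hz'⟩ := hZ' (e 1).1 (e 3).1 (e 1).2 (e 3).2 (hne _ _ (by decide))
    have hz0 := fun i => hA _ _ (e i).1 (e 0).2 (e 3).2 (hne _ _ (by decide)) z hz (Q i) (ι i) (hQ i)
      (hι i) (hιr i) (hm i) (e i).2
    have hz1 := fun i => hA _ _ (e i).1 (e 1).2 (e 3).2 (hne _ _ (by decide)) z' hz' (Q i) (ι i)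
      (hQ i) (hι i) (hιr i) (hm i) (e i).2
    have ha := hprod (ι 0) (ι 2) (hι 0) (hιr 0) (hι 2) (hιr 2)
    have hb := hprod (ι 1) (ι 2) (hι 1) (hιr 1) (hι 2) (hιr 2)
    set a : U ≃+* U := ι 0 * (ι 2)⁻¹ with had
    set b : U ≃+* U := ι 1 * (ι 2)⁻¹ with hbd
    have hzY := (hz0 0).1
    have hzY' := (hz1 0).1
    have e1 : a z ≠ z := by
      have h5 : (ι 2)⁻¹ z = z := TOW.inv_fix ((hz0 2).2.1 (hne _ _ (by decide))
        (hne _ _ (by decide)))
      show ι 0 ((ι 2)⁻¹ z) ≠ z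
      rw [h5]
      exact (hz0 0).2.2 rfl
    have e2 : b z = z := by
      have h5 : (ι 2)⁻¹ z = z := TOW.inv_fix ((hz0 2).2.1 (hne _ _ (by decide))
        (hne _ _ (by decide)))
      show ι 1 ((ι 2)⁻¹ z) = z
      rw [h5]
      exact (hz0 1).2.1 (hne _ _ (by decide)) (hne _ _ (by decide))
    have e3 : a z' = z' := by
      have h5 : (ι 2)⁻¹ z' = z' := TOW.inv_fix ((hz1 2).2.1 (hne _ _ (by decide))
        (hne _ _ (by decide)))
      show ι 0 ((ι 2)⁻¹ z') = z'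
      rw [h5]
      exact (hz1 0).2.1 (hne _ _ (by decide)) (hne _ _ (by decide))
    have e4 : b z' ≠ z' := by
      have h5 : (ι 2)⁻¹ z' = z' := TOW.inv_fix ((hz1 2).2.1 (hne _ _ (by decide))
        (hne _ _ (by decide)))
      show ι 1 ((ι 2)⁻¹ z') ≠ z'
      rw [h5]
      exact (hz1 1).2.2 rfl
    have e5 : (a * b) z ≠ z := by
      show a (b z) ≠ z
      rw [e2]
      exact e1
    have e6 : (a * b) z' ≠ z' := by
      show a (b z') ≠ z'
      intro h5
      exact e4 (a.injective (h5.trans e3.symm))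
    refine four_of59 (E := E) (K0 := K0) ![1, a, b, a * b] ?_ ?_
    · intro i
      fin_cases i
      · exact ⟨TOW.AuE.one, rfl⟩
      · exact ha
      · exact hb
      · exact ⟨ha.1.mul hb.1, by
          show a (b r) = r
          rw [hb.2, ha.2]⟩
    · have D : ∀ {x y : U ≃+* U}, (∃ z ∈ YL E K0 ℓ (U := U), x z ≠ y z) →
          ∃ z ∈ YL E K0 ℓ (U := U), y z ≠ x z := fun ⟨z, h5, h6⟩ => ⟨z, h5, h6.symm⟩
      have d01 : ∃ z ∈ YL E K0 ℓ (U := U), (1 : U ≃+* U) z ≠ a z := ⟨z, hzY, fun h5 => e1 h5.symm⟩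
      have d02 : ∃ z ∈ YL E K0 ℓ (U := U), (1 : U ≃+* U) z ≠ b z := ⟨z', hzY', fun h5 => e4 h5.symm⟩
      have d03 : ∃ z ∈ YL E K0 ℓ (U := U), (1 : U ≃+* U) z ≠ (a * b) z :=
        ⟨z, hzY, fun h5 => e5 h5.symm⟩
      have d12 : ∃ z ∈ YL E K0 ℓ (U := U), a z ≠ b z := ⟨z, hzY, by rw [e2]; exact e1⟩
      have d13 : ∃ z ∈ YL E K0 ℓ (U := U), a z ≠ (a * b) z :=
        ⟨z', hzY', by rw [e3]; exact e6.symm⟩
      have d23 : ∃ z ∈ YL E K0 ℓ (U := U), b z ≠ (a * b) z :=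
        ⟨z, hzY, by rw [e2]; exact e5.symm⟩
      intro i j hij
      fin_cases i <;> fin_cases j <;>
        first
          | exact absurd rfl hij
          | exact d01
          | exact D d01
          | exact d02
          | exact D d02
          | exact d03
          | exact D d03
          | exact d12
          | exact D d12
          | exact d13
          | exact D d13
          | exact d23
          | exact D d23
  · obtain ⟨e⟩ : Nonempty (Fin 3 ↪ {b : Place E (L0 E K0 (U := U)) // BPl ℓ h b}) :=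
      Function.Embedding.nonempty_of_card_le (by
        rw [Fintype.card_fin, ← Nat.card_eq_fintype_card]
        exact h3)
    have hne : ∀ i j : Fin 3, i ≠ j → (e i).1 ≠ (e j).1 := fun i j hij h5 =>
      hij (e.injective (Subtype.ext h5))
    choose Q ι hQ hι hιr hm using fun i : Fin 3 => hI (e i).1 (e i).2
    obtain ⟨z, hz⟩ := hZ' (e 0).1 (e 1).1 (e 0).2 (e 1).2 (hne _ _ (by decide))
    have hz0 := fun i => hA _ _ (e i).1 (e 0).2 (e 1).2 (hne _ _ (by decide)) z hz (Q i) (ι i) (hQ i)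
      (hι i) (hιr i) (hm i) (e i).2
    have ha := hprod (ι 0) (ι 2) (hι 0) (hιr 0) (hι 2) (hιr 2)
    set a : U ≃+* U := ι 0 * (ι 2)⁻¹ with had
    have hzY := (hz0 0).1
    have hzn : z ≠ 0 := hz.1
    have e1 : a z ≠ z := by
      have h5 : (ι 2)⁻¹ z = z := TOW.inv_fix ((hz0 2).2.1 (hne _ _ (by decide))
        (hne _ _ (by decide)))
      show ι 0 ((ι 2)⁻¹ z) ≠ z
      rw [h5]
      exact (hz0 0).2.2 rfl
    obtain ⟨ω, hω, haz⟩ := PDL.eig_YL (E := E) (K0 := K0) hℓ.pos ha.1 (w := z) (by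
      obtain ⟨-, f, hf, -⟩ := hz
      rw [← hf]
      exact f.2)
    have hω1 : ω ≠ 1 := by
      rintro rfl
      rw [map_one, one_mul] at haz
      exact e1 haz
    have hF : Fact ℓ.Prime := ⟨hℓ⟩
    have hωp : IsPrimitiveRoot ω ℓ := by
      have h5 : orderOf ω = ℓ := orderOf_eq_prime hω hω1
      rw [← h5]
      exact IsPrimitiveRoot.orderOf ω
    have hpow : ∀ i : ℕ, (a ^ i) z = algebraMap E U (ω ^ i) * z := by
      intro i
      induction i with
      | zero => simp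
      | succ i ih =>
        rw [pow_succ']
        show a ((a ^ i) z) = _
        rw [ih, map_mul, ha.1.fixE, haz, pow_succ, map_mul, mul_assoc]
    have hfix : ∀ i : ℕ, (a ^ i) r = r := by
      intro i
      induction i with
      | zero => rfl
      | succ i ih =>
        rw [pow_succ']
        show a ((a ^ i) r) = r
        rw [ih, ha.2]
    have h5 : 4 < ℓ := by
      have h6 := hℓ.two_le
      rcases Nat.lt_or_ge 4 ℓ with h7 | h7
      · exact h7
      · exfalso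
        interval_cases ℓ
        · exact h2 rfl
        · exact hℓ3 rfl
        · exact absurd hℓ (by decide)
    refine four_of59 (E := E) (K0 := K0) (fun i => a ^ (i : ℕ))
      (fun i => ⟨PDL.auE_pow ha.1 _, hfix _⟩) fun i j hij => ⟨z, hzY, fun h6 => hij ?_⟩
    rw [hpow, hpow] at h6
    have h7 := (algebraMap E U).injective (mul_right_cancel₀ hzn h6)
    exact Fin.ext (hωp.pow_inj (lt_trans i.2 h5) (lt_trans j.2 h5) h7)

end Pool.Agent.PRG
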